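import Pool.Agent.Helper84.FX.StX

/-!
# Project FX, module H1: the part `E ≠ 0` of the space `H`
-/

set_option autoImplicit false

namespace Pool.Agent.Helper75.FX
open Pool.Agent.Helper84.FX Pool.Agent.Helper72.FX
open Set

noncomputable section

private lemma cE2 (K1 K2 K3 K4 : (Fin 10 → ℂ) → ℂ) (h1 : Continuous K1) (h2 : Continuous K2)
    (h3 : Continuous K3) (h4 : Continuous K4) :
    Continuous (fun z : Fin 10 → ℂ => -(z 6 * z 4 * K4 z) + (z 8 - z 7) +
      z 5 * (z 2 * z 6 * K1 z * z 8 + z 2 * z 6 * K2 z * z 7 + z 2 * z 3 * z 7 * z 8 -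
        2 * z 6 * K3 z * z 9 - z 3 * z 9 ^ 2)) := by
  fun_prop

private lemma cEE1 : Continuous EE1 := by
  unfold EE1 E1 nu
  fun_prop

private lemma cEE2 (hK : StKSM) : Continuous EE2 := by
  obtain ⟨h1, h2, h3, h4, _⟩ := hK
  have hc : Continuous (fun z : Fin 10 → ℂ => ((z 0, z 1, z 2) : ℂ × ℂ × ℂ)) := by fun_prop
  have k1 := h1.continuous.comp hc
  have k2 := h2.continuous.comp hc
  have k3 := h3.continuous.comp hc
  have k4 := h4.continuous.comp hc
  exact cE2 _ _ _ _ k1 k2 k3 k4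

/-- The denominator `|E₁|² + |E₂|²`. -/
private def NE (z : Fin 10 → ℂ) : ℂ :=
  ((Complex.normSq (EE1 z) + Complex.normSq (EE2 z) : ℝ) : ℂ)

private def w1 (z : Fin 10 → ℂ) : ℂ := (z 5 - z 3) * (starRingEnd ℂ) (EE1 z) / NE z
private def w2 (z : Fin 10 → ℂ) : ℂ := (z 5 - z 3) * (starRingEnd ℂ) (EE2 z) / NE z

/-- Add two coordinates. -/
private def ext2 (z : Fin 10 → ℂ) (p q : ℂ) : Fin 12 → ℂ :=
  ![z 0, z 1, z 2, z 3, z 4, z 5, z 6, z 7, z 8, z 9, p, q]

private lemma pr_ext (z : Fin 10 → ℂ) (p q : ℂ) : pr10 (ext2 z p q) = z := by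
  funext i
  fin_cases i <;> rfl

private lemma ext_pr (z : Fin 12 → ℂ) : ext2 (pr10 z) (z 10) (z 11) = z := by
  funext i
  fin_cases i <;> rfl

private lemma FF_ext (z : Fin 10 → ℂ) (p q : ℂ) :
    FF (ext2 z p q) = EE1 z * p + EE2 z * q - (z 5 - z 3) := rfl

private lemma NE_ne {z : Fin 10 → ℂ} (h : (EE1 z, EE2 z) ≠ 0) : NE z ≠ 0 := by
  intro h0
  apply h
  have h1 : Complex.normSq (EE1 z) + Complex.normSq (EE2 z) = 0 := by
    have h0' := h0
    unfold NE at h0'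
    exact_mod_cast h0'
  have h2 := Complex.normSq_nonneg (EE1 z)
  have h3 := Complex.normSq_nonneg (EE2 z)
  have h4 : EE1 z = 0 := Complex.normSq_eq_zero.1 (by linarith)
  have h5 : EE2 z = 0 := Complex.normSq_eq_zero.1 (by linarith)
  rw [h4, h5]; rfl

private lemma key {z : Fin 10 → ℂ} (h : (EE1 z, EE2 z) ≠ 0) :
    EE1 z * w1 z + EE2 z * w2 z = z 5 - z 3 := by
  have hN := NE_ne h
  have h1 : NE z = EE1 z * (starRingEnd ℂ) (EE1 z) + EE2 z * (starRingEnd ℂ) (EE2 z) := by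
    unfold NE
    rw [Complex.mul_conj, Complex.mul_conj]
    push_cast
    rfl
  unfold w1 w2
  field_simp
  rw [h1]

private lemma cNE (hK : StKSM) : Continuous NE := by
  have h1 := cEE1
  have h2 := cEE2 hK
  unfold NE
  have h3 : Continuous fun z : Fin 10 → ℂ => Complex.normSq (EE1 z) :=
    Complex.continuous_normSq.comp h1
  have h4 : Continuous fun z : Fin 10 → ℂ => Complex.normSq (EE2 z) :=
    Complex.continuous_normSq.comp h2
  exact Complex.continuous_ofReal.comp (h3.add h4)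

private lemma cw1 (hK : StKSM) : ContinuousOn w1 {z | (EE1 z, EE2 z) ≠ 0} := by
  unfold w1
  refine ContinuousOn.div ?_ (cNE hK).continuousOn fun z hz => NE_ne hz
  have h1 : Continuous fun z : Fin 10 → ℂ => (starRingEnd ℂ) (EE1 z) :=
    Complex.continuous_conj.comp cEE1
  have h2 : Continuous fun z : Fin 10 → ℂ => z 5 - z 3 := by fun_prop
  exact (h2.mul h1).continuousOn

private lemma cw2 (hK : StKSM) : ContinuousOn w2 {z | (EE1 z, EE2 z) ≠ 0} := by
  unfold w2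
  refine ContinuousOn.div ?_ (cNE hK).continuousOn fun z hz => NE_ne hz
  have h1 : Continuous fun z : Fin 10 → ℂ => (starRingEnd ℂ) (EE2 z) :=
    Complex.continuous_conj.comp (cEE2 hK)
  have h2 : Continuous fun z : Fin 10 → ℂ => z 5 - z 3 := by fun_prop
  exact (h2.mul h1).continuousOn

private lemma cpr : Continuous pr10 := by
  unfold pr10
  refine continuous_pi fun i => ?_
  fin_cases i <;> (simp; fun_prop)

private lemma cext : Continuous (fun q : (Fin 10 → ℂ) × ℂ × ℂ => ext2 q.1 q.2.1 q.2.2) := by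
  unfold ext2
  refine continuous_pi fun i => ?_
  fin_cases i <;> (simp; fun_prop)

theorem hH1 : StHEQ → StKSM → StH1 := by
  intro hEQ hK U
  have hXY : Mp {z | z ∈ HH U ∧ (EE1 (pr10 z), EE2 (pr10 z)) ≠ 0}
      {z | z ∈ C10 U ∧ (EE1 z, EE2 z) ≠ 0} pr10 :=
    ⟨cpr.continuousOn, fun z hz => ⟨hz.1.1, hz.2⟩⟩
  have hYX : Mp {z | z ∈ C10 U ∧ (EE1 z, EE2 z) ≠ 0}
      {z | z ∈ HH U ∧ (EE1 (pr10 z), EE2 (pr10 z)) ≠ 0}
      (fun z => ext2 z (w1 z) (w2 z)) := by
    constructor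
    · refine cext.comp_continuousOn (continuousOn_id.prodMk (ContinuousOn.prodMk ?_ ?_))
      · exact (cw1 hK).mono fun z hz => hz.2
      · exact (cw2 hK).mono fun z hz => hz.2
    · intro z hz
      refine ⟨⟨hz.1, ?_⟩, ?_⟩
      · rw [FF_ext, key hz.2, sub_self]
      · rw [pr_ext]; exact hz.2
  refine hEQ (Fin 12 → ℂ) (Fin 10 → ℂ) _ _ pr10 (fun z => ext2 z (w1 z) (w2 z)) hXY hYX ?_ ?_
  · -- linear homotopy in the last two coordinates
    refine ⟨fun q => ext2 (pr10 q.2) ((1 - (q.1 : ℂ)) * w1 (pr10 q.2) + q.1 * q.2 10)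
      ((1 - (q.1 : ℂ)) * w2 (pr10 q.2) + q.1 * q.2 11), ⟨?_, ?_⟩, ?_, ?_⟩
    · have hp : Continuous fun q : ℝ × (Fin 12 → ℂ) => pr10 q.2 := cpr.comp continuous_snd
      have hm : MapsTo (fun q : ℝ × (Fin 12 → ℂ) => pr10 q.2)
          (II ×ˢ {z | z ∈ HH U ∧ (EE1 (pr10 z), EE2 (pr10 z)) ≠ 0})
          {z | (EE1 z, EE2 z) ≠ 0} := fun q hq => hq.2.2
      have a1 := (cw1 hK).comp hp.continuousOn hm
      have a2 := (cw2 hK).comp hp.continuousOn hm
      have b0 : Continuous fun q : ℝ × (Fin 12 → ℂ) => (1 - (q.1 : ℂ)) := by fun_prop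
      have b1 : Continuous fun q : ℝ × (Fin 12 → ℂ) => (q.1 : ℂ) * q.2 10 := by fun_prop
      have b2 : Continuous fun q : ℝ × (Fin 12 → ℂ) => (q.1 : ℂ) * q.2 11 := by fun_prop
      refine cext.comp_continuousOn (hp.continuousOn.prodMk (ContinuousOn.prodMk ?_ ?_))
      · exact (b0.continuousOn.mul a1).add b1.continuousOn
      · exact (b0.continuousOn.mul a2).add b2.continuousOn
    · intro q hq
      obtain ⟨_, ⟨hU, hF⟩, hE⟩ := hq
      refine ⟨⟨hU, ?_⟩, ?_⟩
      · have hF' : EE1 (pr10 q.2) * q.2 10 + EE2 (pr10 q.2) * q.2 11 -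
            (pr10 q.2 5 - pr10 q.2 3) = 0 := by
          rw [← FF_ext, ext_pr]; exact hF
        have hk := key hE
        rw [FF_ext]
        linear_combination (1 - (q.1 : ℂ)) * hk + (q.1 : ℂ) * hF'
      · rw [pr_ext]; exact hE
    · intro z _
      simp
    · intro z _
      simp [ext_pr]
  · refine ⟨fun q => q.2, ⟨continuous_snd.continuousOn, fun q hq => hq.2⟩, ?_, ?_⟩
    · intro z _
      simp [pr_ext]
    · intro z _
      rfl

end

end Pool.Agent.Helper75.FX
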