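import Pool.Agent.Helper84.FX.StT

/-!
# Project FX, module RET: retraction of `I × Iⁿ` onto `0 × Iⁿ ∪ I × ∂Iⁿ`

Projection from the point `(2, centre)`.
-/

set_option autoImplicit false

namespace Pool.Agent.Helper75.FX
open Pool.Agent.Helper84.FX
open Set

/-- The centred coordinate `2u - 1`. -/
private def ww {n : ℕ} (u : Fin n → ℝ) : Fin n → ℝ := fun i => 2 * u i - 1

/-- The denominator. -/
private noncomputable def MM {n : ℕ} (q : ℝ × (Fin n → ℝ)) : ℝ := max ‖ww q.2‖ ((2 - q.1) / 2)

/-- The projection. -/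
private noncomputable def rr {n : ℕ} (q : ℝ × (Fin n → ℝ)) : ℝ × (Fin n → ℝ) :=
  (2 - (2 - q.1) / MM q, fun i => (1 + (2 * q.2 i - 1) / MM q) / 2)

private lemma norm_ww {n : ℕ} {u : Fin n → ℝ} (hu : u ∈ Cb n) : ‖ww u‖ ≤ 1 := by
  refine (pi_norm_le_iff_of_nonneg zero_le_one).2 fun i => ?_
  obtain ⟨h0, h1⟩ := hu i
  rw [Real.norm_eq_abs, abs_le]
  simp only [ww]
  constructor <;> linarith

private lemma MM_ge {n : ℕ} {q : ℝ × (Fin n → ℝ)} (hq : q.1 ≤ 1) : 1 / 2 ≤ MM q :=
  le_trans (by linarith) (le_max_right _ _)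

private lemma MM_le {n : ℕ} {q : ℝ × (Fin n → ℝ)} (h0 : 0 ≤ q.1) (hu : q.2 ∈ Cb n) :
    MM q ≤ 1 :=
  max_le (norm_ww hu) (by linarith)

private lemma abs_le_MM {n : ℕ} (q : ℝ × (Fin n → ℝ)) (i : Fin n) :
    |2 * q.2 i - 1| ≤ MM q := by
  have h := norm_le_pi_norm (ww q.2) i
  rw [Real.norm_eq_abs] at h
  exact h.trans (le_max_left _ _)

private lemma rr_eq {n : ℕ} {q : ℝ × (Fin n → ℝ)} (h : MM q = 1) : rr q = q := by
  refine Prod.ext ?_ ?_
  · simp only [rr, h]; ring
  · funext i
    simp only [rr, h]; ring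

theorem hRET : StRET := by
  intro n
  refine ⟨rr, ?_, ?_, ?_, ?_⟩
  · have hM : Continuous (MM : ℝ × (Fin n → ℝ) → ℝ) := by
      unfold MM ww
      fun_prop
    have hne : ∀ q ∈ II ×ˢ Cb n, MM q ≠ 0 := fun q hq => by
      have := MM_ge (q := q) hq.1.2
      linarith
    have h1 : ContinuousOn (fun q : ℝ × (Fin n → ℝ) => 2 - (2 - q.1) / MM q) (II ×ˢ Cb n) :=
      continuousOn_const.sub
        ((continuous_const.sub continuous_fst).continuousOn.div hM.continuousOn hne)
    have h2 : ContinuousOn (fun q : ℝ × (Fin n → ℝ) =>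
        (fun i => (1 + (2 * q.2 i - 1) / MM q) / 2 : Fin n → ℝ)) (II ×ˢ Cb n) := by
      refine continuousOn_pi.2 fun i => ?_
      refine ContinuousOn.div_const (continuousOn_const.add ?_) 2
      refine ContinuousOn.div ?_ hM.continuousOn hne
      fun_prop
    exact h1.prodMk h2
  · intro q hq
    obtain ⟨⟨h0, h1⟩, hu⟩ := hq
    have hg := MM_ge (q := q) h1
    have hl := MM_le h0 hu
    have hpos : 0 < MM q := by linarith
    have hC : (rr q).2 ∈ Cb n := by
      intro i
      have ha := abs_le_MM q i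
      have h3 : |(2 * q.2 i - 1) / MM q| ≤ 1 := by
        rw [abs_div, abs_of_pos hpos]
        exact (div_le_one hpos).2 ha
      have h4 := abs_le.1 h3
      simp only [rr]
      exact ⟨by linarith [h4.1], by linarith [h4.2]⟩
    by_cases hc : MM q = (2 - q.1) / 2
    · left
      refine ⟨?_, hC⟩
      have h5 : (2 - q.1) / MM q = 2 := by
        rw [div_eq_iff hpos.ne', hc]; ring
      simp only [rr, h5]
      norm_num
    · right
      have hmax : (2 - q.1) / 2 ≤ MM q := le_max_right _ _
      have hM : MM q = ‖ww q.2‖ := by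
        rcases max_choice ‖ww q.2‖ ((2 - q.1) / 2) with h | h
        · exact h
        · exact absurd h hc
      refine ⟨⟨?_, ?_⟩, hC, ?_⟩
      · have h6 : (2 - q.1) / MM q ≤ 2 := by
          rw [div_le_iff₀ hpos]; linarith
        simp only [rr]
        linarith
      · have h6 : 2 - q.1 ≤ (2 - q.1) / MM q := by
          rw [le_div_iff₀ hpos]
          nlinarith
        simp only [rr]
        linarith
      · -- some coordinate attains the norm
        by_contra hcon
        push Not at hcon
        have hlt : ‖ww q.2‖ < MM q := by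
          refine (pi_norm_lt_iff hpos).2 fun i => ?_
          have ha := abs_le_MM q i
          rw [Real.norm_eq_abs]
          refine lt_of_le_of_ne ha fun he => ?_
          have h7 : |(2 * q.2 i - 1) / MM q| = 1 := by
            rw [abs_div, abs_of_pos hpos]
            have : |2 * q.2 i - 1| = MM q := he
            rw [this, div_self hpos.ne']
          obtain ⟨h8, h9⟩ := hcon i
          rcases (abs_eq zero_le_one).1 h7 with h | h
          · apply h9
            simp only [rr, h]; norm_num
          · apply h8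
            simp only [rr, h]; norm_num
        exact absurd hM hlt.ne'
  · intro u hu
    apply rr_eq
    refine le_antisymm (MM_le le_rfl hu) ?_
    refine le_trans ?_ (le_max_right _ _)
    norm_num
  · intro s hs u hu
    apply rr_eq
    refine le_antisymm (MM_le hs.1 hu.1) ?_
    obtain ⟨i, hi⟩ := hu.2
    refine le_trans ?_ (abs_le_MM (s, u) i)
    rcases hi with hi | hi <;> simp only [hi] <;> norm_num

end Pool.Agent.Helper75.FX
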