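import Pool.Agent.Helper87.FX.StC

/-!
# Project FX, module DER: the derivative of the equation `UV - F(z)`
-/

set_option autoImplicit false

namespace Pool.Agent.Helper75.FX
open Pool.Agent.Helper87.FX
open Set Topology Metric Filter
open scoped ContDiff

private lemma dj_mul_X {n : ℕ} (p : MvPolynomial (Fin n) ℂ) (i j : Fin n) (z : Fin n → ℂ) :
    dj (p * MvPolynomial.X i) z j =
      dj p z j * z i + MvPolynomial.eval z p * (if j = i then 1 else 0) := by
  unfold dj
  rw [MvPolynomial.pderiv_mul, map_add, map_mul, map_mul, MvPolynomial.eval_X,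
    MvPolynomial.pderiv_X]
  by_cases h : j = i
  · subst h; simp
  · rw [if_neg h, Pi.single_eq_of_ne (fun h' => h h'.symm)]; simp

private lemma ev_der {n : ℕ} (F : MvPolynomial (Fin n) ℂ) :
    ContDiff ℝ ∞ (fun z : Fin n → ℂ => MvPolynomial.eval z F) ∧
    ∀ z : Fin n → ℂ, HasFDerivAt (fun z : Fin n → ℂ => MvPolynomial.eval z F)
      (∑ j, (dj F z j) • (ContinuousLinearMap.proj j : (Fin n → ℂ) →L[ℝ] ℂ)) z := by
  induction F using MvPolynomial.induction_on with
  | C a =>
    constructor
    · simp only [MvPolynomial.eval_C]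
      exact contDiff_const
    · intro z
      have h : (∑ j, (dj (MvPolynomial.C a) z j) •
          (ContinuousLinearMap.proj j : (Fin n → ℂ) →L[ℝ] ℂ)) = 0 := by
        refine Finset.sum_eq_zero fun j _ => ?_
        ext ζ
        simp [dj]
      rw [h]
      simp only [MvPolynomial.eval_C]
      exact hasFDerivAt_const a z
  | add p q hp hq =>
    constructor
    · simp only [map_add]
      exact hp.1.add hq.1
    · intro z
      have h : (∑ j, (dj (p + q) z j) •
          (ContinuousLinearMap.proj j : (Fin n → ℂ) →L[ℝ] ℂ)) =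
          (∑ j, (dj p z j) • (ContinuousLinearMap.proj j : (Fin n → ℂ) →L[ℝ] ℂ)) +
          ∑ j, (dj q z j) • (ContinuousLinearMap.proj j : (Fin n → ℂ) →L[ℝ] ℂ) := by
        rw [← Finset.sum_add_distrib]
        refine Finset.sum_congr rfl fun j _ => ?_
        ext ζ
        simp [dj, add_mul]
      rw [h]
      simp only [map_add]
      exact (hp.2 z).add (hq.2 z)
  | mul_X p i hp =>
    have hX : ∀ z : Fin n → ℂ, HasFDerivAt (fun z : Fin n → ℂ => z i)
        (ContinuousLinearMap.proj i : (Fin n → ℂ) →L[ℝ] ℂ) z := fun z =>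
      (ContinuousLinearMap.proj i : (Fin n → ℂ) →L[ℝ] ℂ).hasFDerivAt
    constructor
    · simp only [map_mul, MvPolynomial.eval_X]
      exact hp.1.mul (contDiff_apply ℝ ℂ i)
    · intro z
      have h := (hp.2 z).mul (hX z)
      have he : (∑ j, (dj (p * MvPolynomial.X i) z j) •
          (ContinuousLinearMap.proj j : (Fin n → ℂ) →L[ℝ] ℂ)) =
          MvPolynomial.eval z p • (ContinuousLinearMap.proj i : (Fin n → ℂ) →L[ℝ] ℂ) +
          z i • ∑ j, (dj p z j) • (ContinuousLinearMap.proj j : (Fin n → ℂ) →L[ℝ] ℂ) := by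
        ext ζ
        simp only [sum_apply, smul_apply,
          add_apply, ContinuousLinearMap.proj_apply, smul_eq_mul, dj_mul_X]
        simp only [add_mul, Finset.sum_add_distrib, mul_ite, mul_one, mul_zero, ite_mul, zero_mul,
          Finset.sum_ite_eq', Finset.mem_univ, if_true, Finset.mul_sum]
        rw [add_comm]
        congr 1
        refine Finset.sum_congr rfl fun j _ => ?_
        ring
      rw [he]
      simp only [map_mul, MvPolynomial.eval_X]
      exact h

theorem hDER : StDER := by
  intro n F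
  obtain ⟨h1, h2⟩ := ev_der F
  have hz : ContDiff ℝ ∞ (fun y : AV n => y.2.2) := by fun_prop
  constructor
  · unfold Pq
    refine ContDiff.sub ?_ (h1.comp hz)
    fun_prop
  · intro y ξ
    have ha : HasFDerivAt (fun y : AV n => y.1)
        (ContinuousLinearMap.fst ℝ ℂ (ℂ × (Fin n → ℂ))) y := hasFDerivAt_fst
    have hs : HasFDerivAt (fun y : AV n => y.2)
        (ContinuousLinearMap.snd ℝ ℂ (ℂ × (Fin n → ℂ))) y := hasFDerivAt_snd
    have hb : HasFDerivAt (fun y : AV n => y.2.1)
        ((ContinuousLinearMap.fst ℝ ℂ (Fin n → ℂ)).comp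
          (ContinuousLinearMap.snd ℝ ℂ (ℂ × (Fin n → ℂ)))) y := hasFDerivAt_fst.comp y hs
    have hc : HasFDerivAt (fun y : AV n => y.2.2)
        ((ContinuousLinearMap.snd ℝ ℂ (Fin n → ℂ)).comp
          (ContinuousLinearMap.snd ℝ ℂ (ℂ × (Fin n → ℂ)))) y := hasFDerivAt_snd.comp y hs
    have hF := (h2 y.2.2).comp y hc
    have hP := (ha.mul hb).sub hF
    have hP' : HasFDerivAt (Pq F) _ y := hP
    rw [hP'.fderiv]
    simp

end Pool.Agent.Helper75.FX
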